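import Pool.Agent.H664.FH.Stm

/-! # Project FH (helper664), job PREP (helper791) -/

set_option autoImplicit false

namespace Pool.Agent.H791.FH

open MvPolynomial Filter Topology Metric Pool.Agent.Q72.EG Pool.Agent.H664.FH

/-- a polynomial bound for the values of a polynomial -/
theorem poly_bound {n : ℕ} (q : MvPolynomial (Fin n) ℂ) :
    ∃ (C : ℝ) (N : ℕ), 0 ≤ C ∧ ∀ x : Fin n → ℂ, ‖eval x q‖ ≤ C * (1 + ‖x‖) ^ N := by
  induction q using MvPolynomial.induction_on with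
  | C a =>
    refine ⟨‖a‖, 0, norm_nonneg _, fun x => ?_⟩
    simp
  | add p q hp hq =>
    obtain ⟨C, N, hC, h⟩ := hp
    obtain ⟨C', N', hC', h'⟩ := hq
    refine ⟨C + C', max N N', by positivity, fun x => ?_⟩
    rw [map_add]
    have hx : 1 ≤ 1 + ‖x‖ := by linarith [norm_nonneg x]
    calc ‖eval x p + eval x q‖ ≤ ‖eval x p‖ + ‖eval x q‖ := norm_add_le _ _
      _ ≤ C * (1 + ‖x‖) ^ N + C' * (1 + ‖x‖) ^ N' := add_le_add (h x) (h' x)
      _ ≤ C * (1 + ‖x‖) ^ (max N N') + C' * (1 + ‖x‖) ^ (max N N') := by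
          gcongr
          · exact le_max_left _ _
          · exact le_max_right _ _
      _ = _ := by ring
  | mul_X p i hp =>
    obtain ⟨C, N, hC, h⟩ := hp
    refine ⟨C, N + 1, hC, fun x => ?_⟩
    rw [map_mul, eval_X, norm_mul]
    have hx : ‖x i‖ ≤ 1 + ‖x‖ := by linarith [norm_le_pi_norm x i]
    calc ‖eval x p‖ * ‖x i‖ ≤ (C * (1 + ‖x‖) ^ N) * (1 + ‖x‖) := by
          gcongr
          exact h x
      _ = _ := by ring

/-- a uniform exponent for finitely many polynomials at points of norm at most `T ^ D` -/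
theorem exp_bound {n : ℕ} (D : ℝ) (q : MvPolynomial (Fin n) ℂ) :
    ∃ (A L : ℝ), 0 ≤ A ∧ ∀ (T : ℝ) (x : Fin n → ℂ), L ≤ T → 2 ≤ T → ‖x‖ ≤ T ^ D →
      ‖eval x q‖ ≤ T ^ A := by
  obtain ⟨C, N, hC, h⟩ := poly_bound q
  refine ⟨1 + (|D| + 1) * N, C, by positivity, fun T x hT hT2 hx => ?_⟩
  have hT0 : 0 < T := by linarith
  have h1 : (1 : ℝ) ≤ T := by linarith
  have hx1 : 1 + ‖x‖ ≤ T ^ (|D| + 1) := by
    have e1 : T ^ D ≤ T ^ |D| := Real.rpow_le_rpow_of_exponent_le h1 (le_abs_self D)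
    have e2 : (1 : ℝ) ≤ T ^ |D| := Real.one_le_rpow h1 (abs_nonneg D)
    rw [Real.rpow_add hT0, Real.rpow_one]
    nlinarith
  calc ‖eval x q‖ ≤ C * (1 + ‖x‖) ^ N := h x
    _ ≤ T * (T ^ (|D| + 1)) ^ N := by gcongr
    _ = T ^ (1 + (|D| + 1) * N) := by
        rw [Real.rpow_add hT0 1, Real.rpow_one, Real.rpow_mul hT0.le, Real.rpow_natCast]

/-- the same for a finite set -/
theorem exp_bound_fin {n : ℕ} (D : ℝ) (S : Finset (MvPolynomial (Fin n) ℂ)) :
    ∃ (A L : ℝ), 0 ≤ A ∧ ∀ q ∈ S, ∀ (T : ℝ) (x : Fin n → ℂ), L ≤ T → 2 ≤ T → ‖x‖ ≤ T ^ D →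
      ‖eval x q‖ ≤ T ^ A := by
  classical
  induction S using Finset.induction_on with
  | empty => exact ⟨0, 0, le_rfl, by simp⟩
  | insert q S hq ih =>
    obtain ⟨A, L, hA, h⟩ := ih
    obtain ⟨A', L', hA', h'⟩ := exp_bound D q
    refine ⟨max A A', max L L', le_max_of_le_left hA, ?_⟩
    intro p hp T x hL hT hx
    have h1 : (1 : ℝ) ≤ T := by linarith
    rcases Finset.mem_insert.1 hp with rfl | hp
    · exact (h' T x ((le_max_right _ _).trans hL) hT hx).trans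
        (Real.rpow_le_rpow_of_exponent_le h1 (le_max_right _ _))
    · exact (h p hp T x ((le_max_left _ _).trans hL) hT hx).trans
        (Real.rpow_le_rpow_of_exponent_le h1 (le_max_left _ _))

theorem cp_diff {n : ℕ} {k e : Fin n → ℝ} {w : (Fin n → ℂ) → ℂ} {s : Set (Fin n → ℂ)}
    (hw : DifferentiableOn ℂ w s) : DifferentiableOn ℂ (cp k e w) s := by
  unfold cp
  rw [differentiableOn_pi]
  intro l
  have h1 : DifferentiableOn ℂ (fun u : Fin n → ℂ => u l) s :=
    (differentiable_pi.1 differentiable_id l).differentiableOn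
  exact ((differentiableOn_const _).add h1).add (hw.mul_const _)

theorem eval_diff {n : ℕ} (q : MvPolynomial (Fin n) ℂ) :
    Differentiable ℂ (fun x : Fin n → ℂ => eval x q) := by
  induction q using MvPolynomial.induction_on with
  | C a => simp
  | add p q hp hq =>
    simp only [map_add]
    exact hp.add hq
  | mul_X p i hp =>
    simp only [map_mul, eval_X]
    exact hp.mul (differentiable_pi.1 differentiable_id i)

/-- the variation of a function without zeros and with `|log ‖f‖| ≤ B` -/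
theorem vary {n : ℕ} {f : (Fin n → ℂ) → ℂ} {ρ B : ℝ} (hρ : 0 < ρ) (hB : 0 ≤ B)
    (hf : DifferentiableOn ℂ f (ball 0 ρ)) (h0 : ∀ u ∈ ball (0 : Fin n → ℂ) ρ, f u ≠ 0)
    (hb : ∀ u ∈ ball (0 : Fin n → ℂ) ρ, |Real.log ‖f u‖| ≤ B) {u : Fin n → ℂ}
    (hu : u ∈ ball (0 : Fin n → ℂ) (ρ / 2)) {η : ℝ}
    (hη : 4 * (6 * B + 10) * ‖u‖ ≤ ρ * η) (hη1 : η ≤ 1) :
    ‖f u / f 0 - 1‖ ≤ 2 * η := by
  obtain ⟨h, hd, he, him⟩ := Pool.Agent.Q177.EG.log n 0 ρ f hρ hf h0
  have hre : ∀ v ∈ ball (0 : Fin n → ℂ) ρ, |(h v).re| ≤ B := by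
    intro v hv
    have : Real.log ‖f v‖ = (h v).re := by
      rw [← he v hv, Complex.norm_exp, Real.log_exp]
    rw [← this]
    exact hb v hv
  have hbc := Pool.Agent.Q177.EG.bc n 0 ρ B h hρ hB hd hre him
  have hsub : ball (0 : Fin n → ℂ) (ρ / 2) ⊆ ball 0 ρ := ball_subset_ball (by linarith)
  have h00 : (0 : Fin n → ℂ) ∈ ball (0 : Fin n → ℂ) (ρ / 2) := mem_ball_self (by linarith)
  have key := Complex.dist_le_div_mul_dist_of_mapsTo_ball (f := h) (c := 0) (R₁ := ρ / 2)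
    (R₂ := 2 * (6 * B + 10)) (z := u) (hd.mono hsub) (by
      intro v hv
      rw [mem_closedBall, dist_eq_norm]
      calc ‖h v - h 0‖ ≤ ‖h v‖ + ‖h 0‖ := norm_sub_le _ _
        _ ≤ 2 * (6 * B + 10) := by linarith [hbc v hv, hbc 0 h00]) hu
  rw [dist_eq_norm, dist_zero_right] at key
  have hle : ‖h u - h 0‖ ≤ η := by
    refine key.trans ?_
    have : 2 * (6 * B + 10) / (ρ / 2) * ‖u‖ = 4 * (6 * B + 10) * ‖u‖ / ρ := by
      field_simp
      ring
    rw [this, div_le_iff₀ hρ]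
    linarith
  have hq : f u / f 0 = Complex.exp (h u - h 0) := by
    rw [Complex.exp_sub, he u (hsub hu), he 0 (hsub h00)]
  rw [hq]
  calc ‖Complex.exp (h u - h 0) - 1‖ ≤ 2 * ‖h u - h 0‖ :=
        Complex.norm_exp_sub_one_le (hle.trans hη1)
    _ ≤ 2 * η := by linarith

theorem prep : S_prep := by
  classical
  intro n P α hP hF
  obtain ⟨e, B, he, hF⟩ := hF
  refine ⟨e, B, he, fun S hS => ?_⟩
  have hPp : Prime P := hP.prime
  set R := ∏ c ∈ S, c with hR
  have hPR : ¬ P ∣ R := by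
    intro h
    obtain ⟨c, hc, hd⟩ := (Prime.dvd_finsetProd_iff hPp _).1 h
    exact hS c hc hd
  obtain ⟨D0, hD0⟩ := hF R hPR
  -- the exponents
  obtain ⟨A1, L1, hA1, hb1⟩ := exp_bound_fin D0 S
  obtain ⟨A2, L2, hA2, hb2⟩ := exp_bound_fin D0 (S.image fun c => ∏ d ∈ S.erase c, d)
  set D := A1 + A2 + |D0| with hDdef
  have hD : 0 ≤ D := by positivity
  refine ⟨D, hD, fun δ hδ => ?_⟩
  set K := max (max L1 L2) (max 4 (8 * (6 * D + 10) / δ + 4 * (6 * D + 10) + δ⁻¹)) with hK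
  have hK4 : 4 ≤ K := (le_max_left _ _).trans (le_max_right _ _)
  have hK5 : 8 * (6 * D + 10) / δ + 4 * (6 * D + 10) + δ⁻¹ ≤ K :=
    (le_max_right _ _).trans (le_max_right _ _)
  have hKL1 : L1 ≤ K := (le_max_left _ _).trans (le_max_left _ _)
  have hKL2 : L2 ≤ K := (le_max_right _ _).trans (le_max_left _ _)
  have hK0 : 0 < K := by linarith
  have hδi : 0 < δ⁻¹ := inv_pos.2 hδ
  have hq1 : 0 ≤ 8 * (6 * D + 10) / δ := by positivity
  have hq2 : 0 ≤ 4 * (6 * D + 10) := by positivity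
  obtain ⟨T, hKT, hT2, k, r, w, hr, hw, hall⟩ := hD0 K
  have hT0 : 0 < T := by linarith
  have hT1 : 1 ≤ T := by linarith
  set ℓ := Real.log T with hℓ
  have hℓ1 : 1 ≤ ℓ := by
    rw [hℓ, Real.le_log_iff_exp_le hT0]
    have := Real.exp_one_lt_d9
    linarith
  have hρ : 0 < K * ℓ ^ 3 := by positivity
  have hsub2 : ball (0 : Fin n → ℂ) (ℓ ^ 2) ⊆ ball 0 (K * ℓ ^ 3 / 2) := by
    apply ball_subset_ball
    have h3 : ℓ ^ 2 ≤ ℓ ^ 3 := pow_le_pow_right₀ hℓ1 (by norm_num)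
    have h2 : 0 ≤ ℓ ^ 2 := by positivity
    nlinarith
  have hsub1 : ball (0 : Fin n → ℂ) (K * ℓ ^ 3 / 2) ⊆ ball 0 (K * ℓ ^ 3) :=
    ball_subset_ball (by linarith)
  -- the bounds for the members of `S`
  have hlog : ∀ c ∈ S, ∀ u ∈ ball (0 : Fin n → ℂ) (K * ℓ ^ 3), eval (cp k e w u) c ≠ 0 ∧
      |Real.log ‖eval (cp k e w u) c‖| ≤ D * ℓ := by
    intro c hc u hu
    obtain ⟨-, -, hX, hRX⟩ := hall u hu
    have h1 := hb1 c hc T (cp k e w u) (hKL1.trans hKT) hT2 hX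
    have h2 := hb2 (∏ d ∈ S.erase c, d) (Finset.mem_image_of_mem _ hc) T (cp k e w u)
      (hKL2.trans hKT) hT2 hX
    have hprod : eval (cp k e w u) R = eval (cp k e w u) c *
        eval (cp k e w u) (∏ d ∈ S.erase c, d) := by
      rw [← map_mul, hR, Finset.mul_prod_erase S (fun d => d) hc]
    rw [hprod, norm_mul] at hRX
    have hTD : 0 < T ^ (-D0) := Real.rpow_pos_of_pos hT0 _
    have hne : eval (cp k e w u) c ≠ 0 := by
      intro h
      rw [h, norm_zero, zero_mul] at hRX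
      linarith
    have hpos : 0 < ‖eval (cp k e w u) c‖ := norm_pos_iff.2 hne
    have hlow : T ^ (-D0 - A2) ≤ ‖eval (cp k e w u) c‖ := by
      have hA2p : 0 < T ^ A2 := Real.rpow_pos_of_pos hT0 _
      rw [Real.rpow_sub hT0, div_le_iff₀ hA2p]
      exact hRX.trans (mul_le_mul_of_nonneg_left h2 (norm_nonneg _))
    refine ⟨hne, ?_⟩
    have hup' : Real.log ‖eval (cp k e w u) c‖ ≤ A1 * ℓ := by
      have := Real.log_le_log hpos h1
      rwa [Real.log_rpow hT0] at this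
    have hlow' : (-D0 - A2) * ℓ ≤ Real.log ‖eval (cp k e w u) c‖ := by
      have := Real.log_le_log (Real.rpow_pos_of_pos hT0 _) hlow
      rwa [Real.log_rpow hT0] at this
    have hℓ0 : 0 ≤ ℓ := by linarith
    rw [abs_le]
    constructor
    · have : -D ≤ -D0 - A2 := by
        rw [hDdef]
        linarith [le_abs_self D0]
      nlinarith [mul_le_mul_of_nonneg_right this hℓ0]
    · have : A1 ≤ D := by
        rw [hDdef]
        linarith [abs_nonneg D0]
      nlinarith [mul_le_mul_of_nonneg_right this hℓ0]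
  refine ⟨T, ?_, hℓ1, k, r, w, hr, ?_, ?_, ?_⟩
  · linarith
  · exact hw.mono (hsub2.trans hsub1)
  · intro u hu
    have hu2 := hsub2 hu
    have hu1 := hsub1 hu2
    obtain ⟨hPu, hwu, -, -⟩ := hall u hu1
    refine ⟨hPu, ?_, ?_⟩
    · have hKδ : 1 ≤ K * δ := by
        have : δ⁻¹ ≤ K := by linarith
        calc (1 : ℝ) = δ⁻¹ * δ := by field_simp
          _ ≤ K * δ := by gcongr
      have hn := norm_nonneg (w u + ∑ l, (α l : ℂ) * u l - r)
      by_contra hcon
      push Not at hcon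
      nlinarith
    · intro c hc
      have hfd : DifferentiableOn ℂ (fun u => eval (cp k e w u) c) (ball 0 (K * ℓ ^ 3)) :=
        (eval_diff c).comp_differentiableOn (cp_diff hw)
      have := vary (f := fun u => eval (cp k e w u) c) (ρ := K * ℓ ^ 3) (B := D * ℓ)
        (η := 4 * (6 * D + 10) / K) hρ (by positivity) hfd
        (fun v hv => (hlog c hc v hv).1) (fun v hv => (hlog c hc v hv).2) hu2 ?_ ?_
      · refine this.trans ?_
        rw [← mul_div_assoc, div_le_iff₀ hK0]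
        have : 8 * (6 * D + 10) / δ ≤ K := by linarith
        rw [div_le_iff₀ hδ] at this
        linarith
      · have hun : ‖u‖ ≤ ℓ ^ 2 := by
          rw [mem_ball_zero_iff] at hu
          exact hu.le
        have e1 : K * ℓ ^ 3 * (4 * (6 * D + 10) / K) = 4 * (6 * D + 10) * ℓ * ℓ ^ 2 := by
          field_simp
        rw [e1]
        have h5 : 6 * (D * ℓ) + 10 ≤ (6 * D + 10) * ℓ := by nlinarith
        calc 4 * (6 * (D * ℓ) + 10) * ‖u‖ ≤ 4 * ((6 * D + 10) * ℓ) * ℓ ^ 2 := by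
              gcongr
          _ = _ := by ring
      · rw [div_le_one hK0]
        linarith
  · intro c hc
    exact hlog c hc 0 (mem_ball_self hρ)

end Pool.Agent.H791.FH
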